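import Pool.Agent.Y321.BT.Alg
import Pool.Agent.TH54.BU.Iter

/-!
# MP_727953_al: two conjugation maps force discreteness, in groups of finite exponent

Full negative answer to Q1 and Q2, in a stronger form.
-/

set_option autoImplicit false

open Topology Set Cardinal

namespace Pool.Agent.Results.MP_727953_al.TwoConjugations

/-- The map `F : G × G → G` is separately continuous for the topology `τ` on `G`: it is continuous
in each variable when the other one is fixed. -/
def SeparatelyContinuous {G : Type} (τ : TopologicalSpace G) (F : G → G → G) : Prop :=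
  (∀ b : G, @Continuous G G τ τ fun x => F x b) ∧ (∀ a : G, @Continuous G G τ τ fun y => F a y)

/-- `(G, τ)` is a [quasi]-topological group: the maps `q(x,y) = x y⁻¹` and
`c(x,y) = x y x⁻¹ y⁻¹` are separately continuous. -/
def IsBracketQuasi (G : Type) [Group G] (τ : TopologicalSpace G) : Prop :=
  SeparatelyContinuous τ (fun x y : G => x * y⁻¹) ∧
    SeparatelyContinuous τ (fun x y : G => x * y * x⁻¹ * y⁻¹)

/-- `(G, τ)` is a [semi]-topological group: the maps `s(x,y) = x y` and
`c(x,y) = x y x⁻¹ y⁻¹` are separately continuous. -/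
def IsBracketSemi (G : Type) [Group G] (τ : TopologicalSpace G) : Prop :=
  SeparatelyContinuous τ (fun x y : G => x * y) ∧
    SeparatelyContinuous τ (fun x y : G => x * y * x⁻¹ * y⁻¹)

/-- a [quasi]-topological group is a [semi]-topological group -/
lemma IsBracketQuasi.semi {G : Type} [Group G] {τ : TopologicalSpace G}
    (h : IsBracketQuasi G τ) : IsBracketSemi G τ := by
  obtain ⟨⟨h1, h2⟩, h3⟩ := h
  have hinv : @Continuous G G τ τ fun y : G => y⁻¹ := by
    have h4 := h2 1
    simpa using h4
  refine ⟨⟨fun b => ?_, fun a => ?_⟩, h3⟩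
  · have h4 := h1 b⁻¹
    simpa using h4
  · have h4 := (h2 a).comp hinv
    have e : ((fun y : G => a * y⁻¹) ∘ fun y : G => y⁻¹) = fun y => a * y := by
      funext y
      simp
    rw [e] at h4
    exact h4

/-- **Two conjugation maps force discreteness.**  There is `p₀` such that for every prime `p ≥ p₀`
and every infinite set `I` there are a group `G` of the same cardinality as `I` and two elements
`b`, `c` of `G` such that

(1) `G` has finite exponent: `g ^ (p ^ 3) = 1` for all `g`;

(2) every `T₀` topology on `G` for which multiplication is separately continuous and only the two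
maps `x ↦ x b x⁻¹` and `x ↦ x c x⁻¹` are continuous is discrete;

(3) in particular every `T₀` (for example Hausdorff) topology on `G` which makes `G` a
[semi]-topological group or a [quasi]-topological group is discrete (negative answers to Q2 and
Q1, in every infinite cardinality). -/
theorem result : ∃ p₀ : ℕ, ∀ p : ℕ, p.Prime → p₀ ≤ p → ∀ (I : Type) [Infinite I],
    ∃ (G : Type) (_ : Group G) (b c : G), Nonempty (G ≃ I) ∧ (∀ g : G, g ^ (p ^ 3) = 1) ∧
    (∀ τ : TopologicalSpace G, @T0Space G τ → SeparatelyContinuous τ (fun x y : G => x * y) →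
      (@Continuous G G τ τ fun x => x * b * x⁻¹) → (@Continuous G G τ τ fun x => x * c * x⁻¹) →
      τ = ⊥) ∧
    (∀ τ : TopologicalSpace G, @T0Space G τ → (IsBracketQuasi G τ ∨ IsBracketSemi G τ) →
      τ = ⊥) := by
  obtain ⟨p0, hp0⟩ := Pool.Agent.TH54.BU.burnside
  refine ⟨max p0 3, fun p hp hple I _ => ?_⟩
  have hFp : Fact p.Prime := ⟨hp⟩
  have h2 : p ≠ 2 := by
    have := le_trans (le_max_right _ _) hple
    omega
  obtain ⟨H, _, ⟨D⟩, hH⟩ := Pool.Agent.Y321.BT.exists_alg2 hp
    (hp0 p hp (le_trans (le_max_left _ _) hple)) I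
  have key : ∀ τ : TopologicalSpace (Pool.Agent.TH97.ST.Wr H p), @T0Space _ τ →
      SeparatelyContinuous τ (fun x y : Pool.Agent.TH97.ST.Wr H p => x * y) →
      (@Continuous _ _ τ τ fun x : Pool.Agent.TH97.ST.Wr H p =>
        x * Pool.Agent.TH97.ST.Wr.t * x⁻¹) →
      (@Continuous _ _ τ τ fun x : Pool.Agent.TH97.ST.Wr H p =>
        x * Pool.Agent.TH97.ST.Wr.at_ 0 D.a * x⁻¹) → τ = ⊥ := by
    intro τ h0 hs ht ha
    have h1 : @T1Space _ τ := Pool.Agent.Y321.BT.t1_of_t0 (pow_pos hp.pos 3)
      (Pool.Agent.Y321.BT.Alg2.exponent D) τ hs.2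
    exact D.discrete h2 τ hs.2 hs.1 ht ha
  refine ⟨Pool.Agent.TH97.ST.Wr H p, inferInstance, Pool.Agent.TH97.ST.Wr.t,
    Pool.Agent.TH97.ST.Wr.at_ 0 D.a, Cardinal.eq.1 (Pool.Agent.TH97.ST.mk_wr I hH),
    Pool.Agent.Y321.BT.Alg2.exponent D, key, fun τ h0 h => ?_⟩
  have h' : IsBracketSemi _ τ := by
    rcases h with h | h
    · exact h.semi
    · exact h
  have hcj : ∀ a : Pool.Agent.TH97.ST.Wr H p,
      @Continuous _ _ τ τ fun x : Pool.Agent.TH97.ST.Wr H p => x * a * x⁻¹ := by
    intro a
    have h1 := (h'.1.1 a).comp (h'.2.1 a)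
    refine h1.congr fun x => ?_
    simp only [Function.comp_apply]
    group
  exact key τ h0 h'.1 (hcj _) (hcj _)

end Pool.Agent.Results.MP_727953_al.TwoConjugations
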